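import Pool.Agent.Helper54.FP.Inst
import Pool.Agent.Helper55.FP.Left

/-!
# FP-3: an element of trace one
-/

set_option autoImplicit false
set_option linter.unusedVariables false
set_option linter.unusedSectionVars false

namespace Pool.Agent.Helper54.FP

section
variable {p : ℕ} [Fact p.Prime] {G : Type} [Group G] [Fintype G] [DecidableEq G]

/-- the certificate: `∑ i, a_i(Y) b_i(gY)` is `1` for `g = 1` and `0` otherwise -/
theorem trace_cert {R Ω : Type} [CommRing R] [CommRing Ω] {φ : R →+* Ω}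
    {Y : Matrix G G Ω} {Z : Matrix G G (MvPolynomial (G × G) R)}
    (hZ : Z.map (ev φ Y) * Y = 1) (g : G) :
    ∑ i, ev φ Y (Z 1 i) * ev φ (actM g Y) (MvPolynomial.X (i, 1)) = if g = 1 then 1 else 0 := by
  have h := congrFun (congrFun hZ 1) g
  rw [Matrix.mul_apply, Matrix.one_apply] at h
  simp only [Matrix.map_apply] at h
  simp only [ev_X, actM_apply, mul_one]
  rw [h]
  by_cases hg : g = 1
  · rw [if_pos hg, if_pos hg.symm]
  · rw [if_neg hg, if_neg (fun h => hg h.symm)]

/-- the trace of a polynomial expression is invariant -/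
theorem trace_inv {R Ω : Type} [CommRing R] [CommRing Ω] (φ : R →+* Ω)
    (Y : Matrix G G Ω) (H : Subgroup G) [Fintype H] (F : MvPolynomial (G × G) R) (h : G)
    (hh : h ∈ H) : ev φ (actM h Y) (∑ g : H, sh (g : G) F) = ev φ Y (∑ g : H, sh (g : G) F) := by
  simp only [map_sum, ev_sh, actM_actM]
  exact Fintype.sum_equiv (Equiv.mulLeft (⟨h, hh⟩ : H)) _ _ (fun g => rfl)

theorem trace_mem {R Ω : Type} [CommRing R] [CommRing Ω] {φ : R →+* Ω}
    {Y : Matrix G G Ω} {H : Subgroup G} [Fintype H]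
    (h : FM p φ Y H) (F : MvPolynomial (G × G) R) :
    ∃ r : R, ∑ g : H, ev φ (actM (g : G) Y) F = φ r := by
  obtain ⟨r, hr⟩ := h.fix (∑ g : H, sh (g : G) F) (fun g hg => trace_inv φ Y H F g hg)
  refine ⟨r, ?_⟩
  rw [← hr, map_sum]
  exact Finset.sum_congr rfl fun g _ => (ev_sh φ Y g F).symm

/-- the ideal of the traces -/
def trIdeal {R Ω : Type} [CommRing R] [CommRing Ω] (φ : R →+* Ω)
    (Y : Matrix G G Ω) (H : Subgroup G) [Fintype H] : Ideal R where
  carrier := {r | ∃ c : MvPolynomial (G × G) R, ∑ g : H, ev φ (actM (g : G) Y) c = φ r}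
  zero_mem' := ⟨0, by simp⟩
  add_mem' := by
    rintro a b ⟨c, hc⟩ ⟨d, hd⟩
    exact ⟨c + d, by simp only [map_add, Finset.sum_add_distrib, hc, hd]⟩
  smul_mem' := by
    rintro s a ⟨c, hc⟩
    refine ⟨MvPolynomial.C s * c, ?_⟩
    simp only [map_mul, ev_C, smul_eq_mul, ← Finset.mul_sum, hc]

theorem fm_trace_one {R Ω : Type} [CommRing R] [CommRing Ω] [CharP Ω p] {φ : R →+* Ω}
    (hφ : Function.Injective φ) {Y : Matrix G G Ω} {H : Subgroup G} [Fintype H]
    (h : FM p φ Y H) :
    ∃ c : MvPolynomial (G × G) R, ∑ g : H, ev φ (actM (g : G) Y) c = 1 := by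
  obtain ⟨Z, -, hZ⟩ := fm_inv h
  obtain ⟨Ψ, -, hΨ⟩ := h.frob
  let f : R →+* (ev φ Y).range := (ev φ Y).rangeRestrict.comp MvPolynomial.C
  have hfv : ∀ r, ((f r : (ev φ Y).range) : Ω) = φ r := fun r => ev_C φ Y r
  have hsub : (ev φ Y).range.subtype.comp f = φ := RingHom.ext hfv
  have hfinj : Function.Injective f := by
    intro a b hab
    apply hφ
    rw [← hfv, ← hfv, hab]
  have hint : f.IsIntegral := by
    rintro ⟨x, F, rfl⟩
    obtain ⟨q, hq, hq0⟩ := integral_of_frob (p := p) φ Y Ψ hΨ F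
    refine ⟨q, hq, ?_⟩
    apply Subtype.coe_injective
    have h2 := Polynomial.hom_eval₂ q f (ev φ Y).range.subtype ⟨ev φ Y F, F, rfl⟩
    rw [hsub] at h2
    exact (h2.trans hq0).trans (map_zero (ev φ Y).range.subtype).symm
  have htop : (trIdeal φ Y H).map f = ⊤ := by
    rw [Ideal.eq_top_iff_one]
    choose r hr using fun i : G => trace_mem h (MvPolynomial.X (i, (1 : G)))
    have hone : (1 : (ev φ Y).range) = ∑ i, (ev φ Y).rangeRestrict (Z 1 i) * f (r i) := by
      apply Subtype.coe_injective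
      have h3 : ∑ i, ev φ Y (Z 1 i) * φ (r i) = 1 := by
        simp only [← hr, Finset.mul_sum]
        rw [Finset.sum_comm]
        simp only [trace_cert hZ]
        rw [Finset.sum_eq_single (1 : H)]
        · simp
        · intro g _ hg
          rw [if_neg]
          intro hc
          exact hg (Subtype.ext hc)
        · intro hc
          exact absurd (Finset.mem_univ _) hc
      have h4 : (((∑ i, (ev φ Y).rangeRestrict (Z 1 i) * f (r i) : (ev φ Y).range)) : Ω) =
          ∑ i, ev φ Y (Z 1 i) * φ (r i) := by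
        rw [AddSubmonoidClass.coe_finsetSum]
        exact Finset.sum_congr rfl fun i _ => by
          rw [← hfv]
          rfl
      exact (h4.trans h3).symm
    rw [hone]
    refine Ideal.sum_mem _ fun i _ => Ideal.mul_mem_left _ _ (Ideal.mem_map_of_mem f ?_)
    exact ⟨_, hr i⟩
  have h1 : (1 : R) ∈ trIdeal φ Y H := by
    rw [← Ideal.eq_top_iff_one]
    exact (Ideal.map_eq_top_iff f hfinj hint).1 htop
  obtain ⟨c, hc⟩ := h1
  exact ⟨c, hc.trans (map_one φ)⟩

end

end Pool.Agent.Helper54.FP
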