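import Pool.Agent.Helper54.FP.Inst
import Pool.Agent.Helper37.FP.Umat
import Pool.Agent.Helper67.FP.Transport
import Pool.Agent.Helper88.FP.Indep
import Pool.Agent.Helper72.FP.Integral
import Pool.Agent.Helper35.FP.FMofY
import Pool.Agent.Helper87.FP.LocalAS
import Pool.Agent.Helper92.PW.CoverL2
import Pool.Agent.Helper73.PW.L1

/-!
# FP-29: from covers to patching data
-/

set_option autoImplicit false
set_option linter.unusedVariables false
set_option linter.unusedSectionVars false
open scoped Pointwise
open Pool.Agent.Helper54.PW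

namespace Pool.Agent.Helper54.FP

section
variable {p : ℕ} [Fact p.Prime] {G : Type} [Group G] [Fintype G] [DecidableEq G]

/-- a polynomial of degree less than `p` which is invariant under `X ↦ X + 1` is constant -/
theorem pcov_aux_const {E : Type} [Field E] [CharP E p] (R : Polynomial E)
    (hdeg : R.natDegree < p) (hR : R.comp (Polynomial.X + 1) = R) :
    R = Polynomial.C (R.eval 0) := by
  have hstep : ∀ n : ℕ, R.eval (n : E) = R.eval 0 := by
    intro n
    induction n with
    | zero => simp
    | succ n ih =>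
      rw [← ih]
      conv_rhs => rw [← hR]
      rw [Polynomial.eval_comp]
      simp
  rw [← sub_eq_zero]
  refine Polynomial.eq_zero_of_natDegree_lt_card_of_eval_eq_zero _
    (f := fun x : ZMod p => ZMod.castHom (dvd_refl p) E x) (RingHom.injective _) (fun x => ?_) ?_
  · have hx : ZMod.castHom (dvd_refl p) E x = ((x.val : ℕ) : E) := by
      conv_lhs => rw [← ZMod.natCast_zmod_val x]
      rw [map_natCast]
    rw [hx, Polynomial.eval_sub, Polynomial.eval_C, hstep, sub_self]
  · rw [ZMod.card]
    refine lt_of_le_of_lt (Polynomial.natDegree_sub_le _ _) ?_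
    rw [Polynomial.natDegree_C]
    exact max_lt hdeg (Nat.Prime.pos Fact.out)

/-- an expression in an Artin-Schreier root which is invariant under `u ↦ u + 1` lies in the base
field -/
theorem pcov_aux_descend {E Ω : Type} [Field E] [CharP E p] [Field Ω] [CharP Ω p] (i : E →+* Ω)
    (g : E) (u : Ω) (hu : u ^ p - u = i g)
    (hind : ∀ P : Polynomial E, P.natDegree < p → P.eval₂ i u = 0 → P = 0) (Q : Polynomial E)
    (hQ : Q.eval₂ i (u + 1) = Q.eval₂ i u) : ∃ c : E, i c = Q.eval₂ i u := by
  have hp : 1 < p := (Fact.out : p.Prime).one_lt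
  let m : Polynomial E := Polynomial.X ^ p - (Polynomial.X + Polynomial.C g)
  have hm : m.Monic := Polynomial.monic_X_pow_sub (by
    rw [Polynomial.degree_X_add_C]; exact_mod_cast hp)
  have hmu : m.eval₂ i u = 0 := by
    simp only [m, Polynomial.eval₂_sub, Polynomial.eval₂_pow, Polynomial.eval₂_X,
      Polynomial.eval₂_add, Polynomial.eval₂_C, ← hu]
    ring
  have hmu1 : m.eval₂ i (u + 1) = 0 := by
    simp only [m, Polynomial.eval₂_sub, Polynomial.eval₂_pow, Polynomial.eval₂_X,
      Polynomial.eval₂_add, Polynomial.eval₂_C, ← hu, add_pow_char, one_pow]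
    ring
  have hmdeg : m.natDegree = p := by
    have : m.degree = p := by
      have h1 : (Polynomial.X + Polynomial.C g).degree < (Polynomial.X ^ p : Polynomial E).degree := by
        rw [Polynomial.degree_X_add_C, Polynomial.degree_X_pow]
        exact_mod_cast hp
      exact (Polynomial.degree_sub_eq_left_of_degree_lt h1).trans (Polynomial.degree_X_pow p)
    exact Polynomial.natDegree_eq_of_degree_eq_some this
  have hdiv := Polynomial.modByMonic_add_div Q m
  set R : Polynomial E := Q %ₘ m with hRdef
  have hRdeg : R.natDegree < p := by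
    have := Polynomial.natDegree_modByMonic_lt Q hm (by
      intro h
      have := congrArg Polynomial.natDegree h
      rw [hmdeg, Polynomial.natDegree_one] at this
      omega)
    rwa [hmdeg] at this
  have hev : ∀ x : Ω, m.eval₂ i x = 0 → Q.eval₂ i x = R.eval₂ i x := by
    intro x hx
    conv_lhs => rw [← hdiv]
    rw [Polynomial.eval₂_add, Polynomial.eval₂_mul, hx, zero_mul, add_zero]
  have hRu : R.eval₂ i (u + 1) = R.eval₂ i u := by
    rw [← hev _ hmu, ← hev _ hmu1, hQ]
  have hS : R.comp (Polynomial.X + 1) - R = 0 := by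
    apply hind
    · refine lt_of_le_of_lt (Polynomial.natDegree_sub_le _ _) (max_lt ?_ hRdeg)
      rw [Polynomial.natDegree_comp]
      have : (Polynomial.X + 1 : Polynomial E).natDegree = 1 := by
        simpa using Polynomial.natDegree_X_add_C (1 : E)
      rw [this, mul_one]
      exact hRdeg
    · rw [Polynomial.eval₂_sub, Polynomial.eval₂_comp]
      simp only [Polynomial.eval₂_add, Polynomial.eval₂_X, Polynomial.eval₂_one]
      rw [hRu, sub_self]
  have hconst := pcov_aux_const R hRdeg (sub_eq_zero.1 hS)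
  refine ⟨R.eval 0, ?_⟩
  rw [hev _ hmu]
  conv_rhs => rw [hconst]
  rw [Polynomial.eval₂_C]

theorem pcov_aux_actM {Ω : Type} [CommRing Ω] [CharP Ω p] (τ : G) (hτ : τ ^ p = 1)
    (M : Matrix G G Ω) : actM τ M = M * Umat p τ 1 := by
  have h1 : actM τ (M * 1) = M * actM τ 1 := actM_mul τ M 1
  rw [mul_one] at h1
  rw [h1, ← umat_zero (p := p) τ, actM_umat τ hτ, zero_add]

theorem pcov_of_realizable {k : Type} [Field k] [IsAlgClosed k] [CharP k p] (τ : G)
    (hτ : orderOf τ = p) (H : Subgroup G) (hH : τ ∈ H)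
    (h : RealAct k ((Subgroup.zpowers τ).subgroupOf H)) : PCov p k τ H := by
  have hτp : τ ^ p = 1 := by rw [← hτ]; exact pow_orderOf_eq_one τ
  -- a place of the rational function field
  obtain ⟨x, hx, hxk⟩ : ∃ x : ValuationSubring (RatFunc k), x ≠ ⊤ ∧
      ∀ c : k, algebraMap k (RatFunc k) c ∈ x := by
    obtain ⟨F, _, _, _, _, _, _, _, A, _, hA2, hA3, _⟩ := h
    refine ⟨A.comap (algebraMap (RatFunc k) F), ?_, hA2⟩
    intro ht
    have : (RatFunc.X : RatFunc k) ∈ A.comap (algebraMap (RatFunc k) F) := by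
      rw [ht]; exact ValuationSubring.mem_top _
    exact hA3 this
  obtain ⟨L, _, _, _, _, f, hunr, A, hA1, hA2, hA3, hA4⟩ :=
    exists_cover_of_realizable _ x hx hxk (realizable_of_realAct _ h x hx hxk)
  obtain ⟨Y, hY, hYint, hYint', hYf⟩ := exists_Y H f hunr
  have hFM : FM p (pk k L) Y H := fm_of_Y H f Y hY hYint hYint' hYf
  -- the local situation
  have hτL : orderOf (f ⟨τ, hH⟩) = p := by
    rw [MulEquiv.orderOf_eq, ← hτ]
    exact (Subgroup.orderOf_coe (⟨τ, hH⟩ : H)).symm
  have hst : ∀ σ : L ≃ₐ[RatFunc k] L, σ • A = A ↔ σ ∈ Subgroup.zpowers (f ⟨τ, hH⟩) := by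
    intro σ
    rw [hA4]
    constructor
    · rintro ⟨g, hg, rfl⟩
      obtain ⟨n, hn⟩ := Subgroup.mem_zpowers_iff.1 (Subgroup.mem_subgroupOf.1 hg)
      refine Subgroup.mem_zpowers_iff.2 ⟨n, ?_⟩
      rw [← map_zpow]
      congr 1
      exact Subtype.ext (by simpa using hn)
    · intro hσ
      obtain ⟨n, hn⟩ := Subgroup.mem_zpowers_iff.1 hσ
      refine ⟨(⟨τ, hH⟩ : H) ^ n, ?_, ?_⟩
      · rw [Subgroup.mem_subgroupOf]
        exact Subgroup.mem_zpowers_iff.2 ⟨n, by simp⟩
      · rw [map_zpow, hn]
  obtain ⟨Ω, _, i, j, g, u, hij, hg1, hg2, hu, hpoly⟩ :=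
    exists_local (f ⟨τ, hH⟩) hτL A hA1 hA2 hA3 hst
  have : CharP (LaurentSeries k) p := charP_KK p k
  have : CharP Ω p :=
    charP_of_injective_ringHom (f := i.comp (HahnSeries.C : k →+* LaurentSeries k))
      (RingHom.injective _) p
  have : CharP L p :=
    charP_of_injective_ringHom (f := (algebraMap (RatFunc k) L).comp (algebraMap k (RatFunc k)))
      (RingHom.injective _) p
  have hi : Function.Injective i := RingHom.injective i
  have hind : ∀ P : Polynomial (LaurentSeries k), P.natDegree < p → P.eval₂ i u = 0 → P = 0 :=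
    indep_as i hi (RingHom.id _) (fun a b h => h) (px k g) g rfl hg1 hg2 u hu
  -- polynomial expressions for the entries
  choose P hP hP' using fun a b : G => hpoly (Y a b)
  let PM : Matrix G G (Polynomial (LaurentSeries k)) := P
  let Q : Matrix G G (Polynomial (LaurentSeries k)) :=
    PM * Umat p τ (-(Polynomial.X : Polynomial (LaurentSeries k)))
  have hQ1 : Q.map (Polynomial.eval₂RingHom i u) = Y.map j * Umat p τ (-u) := by
    have h1 : PM.map (Polynomial.eval₂RingHom i u) = Y.map j := by
      ext a b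
      exact (hP a b).symm
    rw [Matrix.map_mul, h1, umat_map]
    simp
  have hQ2 : Q.map (Polynomial.eval₂RingHom i (u + 1)) = Y.map j * Umat p τ (-u) := by
    have h1 : PM.map (Polynomial.eval₂RingHom i (u + 1)) = Y.map j * Umat p τ 1 := by
      rw [← pcov_aux_actM τ hτp, ← actM_map]
      have h2 := hYf ⟨τ, hH⟩
      rw [show ((⟨τ, hH⟩ : H) : G) = τ from rfl] at h2
      rw [← h2]
      ext a b
      exact (hP' a b).symm
    rw [Matrix.map_mul, h1, umat_map, Matrix.mul_assoc, ← umat_add τ hτp]
    simp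
  have hdesc : ∀ a b, ∃ c : LaurentSeries k, i c = (Y.map j * Umat p τ (-u)) a b := by
    intro a b
    obtain ⟨c, hc⟩ := pcov_aux_descend i (px k g) u hu hind (Q a b) (by
      have h1 := congrFun (congrFun hQ1 a) b
      have h2 := congrFun (congrFun hQ2 a) b
      exact h2.trans h1.symm)
    exact ⟨c, hc.trans (congrFun (congrFun hQ1 a) b)⟩
  choose C hC using hdesc
  have hCmap : (Matrix.of C).map i = Y.map j * Umat p τ (-u) := by
    ext a b
    exact hC a b
  have hUU : Umat p τ (-u) * Umat p τ u = 1 := by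
    rw [← umat_add τ hτp, neg_add_cancel, umat_zero]
  have hCU : (Matrix.of C).map i * Umat p τ u = Y.map j := by
    rw [hCmap, Matrix.mul_assoc, hUU, Matrix.mul_one]
  have hYj : IsUnit (Y.map j) := by
    have := hY.map (j.mapMatrix (m := G))
    exact this
  have hCunit : IsUnit (Matrix.of C) := by
    rw [Matrix.isUnit_iff_isUnit_det, isUnit_iff_ne_zero]
    intro h0
    have h1 : ((Matrix.of C).map i).det = 0 := by
      have := RingHom.map_det i (Matrix.of C)
      rw [h0, map_zero] at this
      exact this.symm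
    have h2 : (Y.map j).det = 0 := by
      rw [← hCU, Matrix.det_mul, h1, zero_mul]
    exact ((Matrix.isUnit_iff_isUnit_det _).1 hYj).ne_zero h2
  refine ⟨g, Matrix.of C, Ω, inferInstance, i, u, hg1, hg2, hCunit, hu, ?_⟩
  rw [hCU]
  have hcomp : i.comp (px k) = j.comp (pk k L) := by
    refine RingHom.ext fun q => ?_
    have h1 := hij (algebraMap (Polynomial k) (RatFunc k) q)
    have h2 : rx k (algebraMap (Polynomial k) (RatFunc k) q) = px k q := by
      simp [rx]
    rw [h2] at h1
    exact h1.symm
  rw [hcomp]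
  have hinj : Function.Injective (j.comp (pk k L)) := by
    rw [← hcomp]
    exact hi.comp (px_injective k)
  exact (fm_transport hinj hFM (Rel.of_hom j (pk k L) Y)).1

end

end Pool.Agent.Helper54.FP
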